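import Mathlib
import Pool.Agent.H9.JointDefs
import Pool.Agent.H9.Joint2

set_option autoImplicit false

namespace Pool.Agent.Results.MP_a8d5c3_co.Counter
open Pool.Agent.H9.JointDefs Pool.Agent.H9.Joint Filter Topology

theorem inv0 : Tendsto (fun s : ℕ => ((s : ℝ))⁻¹) atTop (𝓝 0) := tendsto_inv_atTop_nhds_zero_nat

theorem lim2 : Tendsto (fun s : ℕ => ((LL s).card : ℝ) / (s : ℝ) ^ 2) atTop (𝓝 2) := by
  have h1 : Tendsto (fun s : ℕ => 2 - 2 * ((s : ℝ))⁻¹) atTop (𝓝 2) := by
    simpa using (inv0.const_mul 2).const_sub 2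
  refine tendsto_of_tendsto_of_tendsto_of_le_of_le' h1 tendsto_const_nhds ?_ ?_
  · filter_upwards [eventually_gt_atTop 0] with s hs
    have a4 := G2_ge (s := s)
    have a5 := ch2 (2 * s)
    rw [← card_LL] at a4
    have : 2 * (s * s) ≤ (LL s).card + 2 * s := by nlinarith
    have h : (2 * (s * s) : ℝ) ≤ (LL s).card + 2 * s := by exact_mod_cast this
    have hs' : (0 : ℝ) < s := by exact_mod_cast hs
    rw [le_div_iff₀ (by positivity)]
    field_simp
    nlinarith
  · filter_upwards [eventually_gt_atTop 0] with s hs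
    have a4 := G_le (s := s) 2
    have a5 := ch2 (2 * s)
    rw [← card_LL] at a4
    have : (LL s).card ≤ 2 * (s * s) := by nlinarith
    have h : ((LL s).card : ℝ) ≤ 2 * (s * s) := by exact_mod_cast this
    have hs' : (0 : ℝ) < s := by exact_mod_cast hs
    rw [div_le_iff₀ (by positivity)]
    nlinarith

theorem lim3 : Tendsto (fun s : ℕ => (J (LL s) : ℝ) / (s : ℝ) ^ 3) atTop (𝓝 (4 / 3)) := by
  have h1 : Tendsto (fun s : ℕ => 4 / 3 - 4 * ((s : ℝ))⁻¹) atTop (𝓝 (4 / 3)) := by
    simpa using (inv0.const_mul 4).const_sub (4 / 3)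
  refine tendsto_of_tendsto_of_tendsto_of_le_of_le' h1 tendsto_const_nhds ?_ ?_
  · filter_upwards [eventually_gt_atTop 0] with s hs
    have a4 := G3_ge (s := s)
    have a5 := ch3 (2 * s)
    rw [← J_eq] at a4
    have : 4 * (s * s * s) ≤ 3 * J (LL s) + 12 * (s * s) := by nlinarith
    have h : (4 * (s * s * s) : ℝ) ≤ 3 * J (LL s) + 12 * (s * s) := by exact_mod_cast this
    have hs' : (0 : ℝ) < s := by exact_mod_cast hs
    rw [le_div_iff₀ (by positivity)]
    field_simp
    nlinarith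
  · filter_upwards [eventually_gt_atTop 0] with s hs
    have a4 := G_le (s := s) 3
    have a5 := ch3 (2 * s)
    rw [← J_eq] at a4
    have : 3 * J (LL s) ≤ 4 * (s * s * s) := by nlinarith
    have h : (3 * J (LL s) : ℝ) ≤ 4 * (s * s * s) := by exact_mod_cast this
    have hs' : (0 : ℝ) < s := by exact_mod_cast hs
    rw [div_le_iff₀ (by positivity)]
    nlinarith

theorem val : (4 / 3 : ℝ) / (2 : ℝ) ^ (3 / 2 : ℝ) = √2 / 3 := by
  have h : (2 : ℝ) ^ (3 / 2 : ℝ) = 2 * √2 := by
    rw [show (3 / 2 : ℝ) = 1 + 1 / 2 by norm_num, Real.rpow_add (by norm_num), Real.rpow_one,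
      Real.sqrt_eq_rpow]
  have h2 : √2 * √2 = 2 := Real.mul_self_sqrt (by norm_num)
  have h3 : (0 : ℝ) < √2 := by positivity
  rw [h]
  field_simp
  nlinarith

theorem result : ∃ L : ℕ → Finset (Set V),
    (∀ k, ∀ l ∈ L k, IsLine l) ∧
    Tendsto (fun k => (L k).card) atTop atTop ∧
    Tendsto (fun k => (J (L k) : ℝ) / ((L k).card : ℝ) ^ (3 / 2 : ℝ)) atTop (𝓝 (√2 / 3)) ∧
    ∀ k ≥ 100, ∀ H : Finset (Set V), Generic H →
      (1 / 5 : ℝ) * (L k).card ≤ (symmDiff (↑(L k) : Set (Set V)) (linesOf H)).ncard := by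
  refine ⟨LL, fun _ _ h => isLine h, ?_, ?_, fun k hk H hH => ?_⟩
  · refine tendsto_atTop_mono' _ ?_ tendsto_id
    filter_upwards [eventually_ge_atTop 2] with s hs
    have a4 := G2_ge (s := s)
    have a5 := ch2 (2 * s)
    rw [← card_LL] at a4
    simp only [id]
    nlinarith
  · rw [← val]
    have h := lim3.div (lim2.rpow_const (p := 3 / 2) (Or.inl (by norm_num))) (by positivity)
    refine h.congr' ?_
    filter_upwards [eventually_gt_atTop 0] with s hs
    have hs' : (0 : ℝ) < s := by exact_mod_cast hs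
    have e : ((s : ℝ) ^ 2) ^ (3 / 2 : ℝ) = (s : ℝ) ^ 3 := by
      rw [← Real.rpow_natCast, ← Real.rpow_mul hs'.le, ← Real.rpow_natCast]
      norm_num
    simp only [Pi.div_apply]
    rw [Real.div_rpow (by positivity) (by positivity), e, div_div_div_cancel_right₀ (by positivity)]
  · have h : ((LL k).card : ℝ) ≤ 5 * (symmDiff (↑(LL k) : Set (Set V)) (linesOf H)).ncard := by
      exact_mod_cast far hH hk
    linarith

end Pool.Agent.Results.MP_a8d5c3_co.Counter
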